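import Pool.Agent.S07497

/-! The pebbling number of the odd graph is at most twelve times the number of its vertices. -/

namespace Pool.Agent.Results.MP_1d3ff8_co.OddGraphTwelve

/-- The Kneser graph `K(m, t)`: the subsets with `t` elements of a set with `m` elements, two of them
adjacent if they are disjoint (and different, which matters only for `t = 0`). -/
def kneser (m t : ℕ) : SimpleGraph {s : Finset (Fin m) // s.card = t} where
  Adj u v := u ≠ v ∧ Disjoint u.1 v.1
  symm := ⟨fun _ _ h => ⟨h.1.symm, h.2.symm⟩⟩
  loopless := ⟨fun _ h => h.1 rfl⟩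

variable {V : Type} [Fintype V] [DecidableEq V]

/-- A pebbling move from the configuration `C` to `C'`: two pebbles are removed from a vertex `u` and
one is added to a neighbour `v` of `u`. -/
def Move (G : SimpleGraph V) (C C' : V → ℕ) : Prop :=
  ∃ u v : V, G.Adj u v ∧ 2 ≤ C u ∧ C' u = C u - 2 ∧ C' v = C v + 1 ∧
    ∀ w : V, w ≠ u → w ≠ v → C' w = C w

/-- The configuration `C` is `r`-solvable: some sequence of moves places at least one pebble on `r`. -/
def Solvable (G : SimpleGraph V) (r : V) (C : V → ℕ) : Prop :=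
  ∃ C' : V → ℕ, Relation.ReflTransGen (Move G) C C' ∧ 1 ≤ C' r

/-- The pebbling number: the least `k` such that every configuration of size `k` is `r`-solvable for every
vertex `r`. -/
noncomputable def pebblingNumber (G : SimpleGraph V) : ℕ :=
  sInf {k : ℕ | ∀ (r : V) (C : V → ℕ), ∑ v, C v = k → Solvable G r C}

/-- Every configuration of at least `12 * (2 t + 1 choose t)` pebbles on the odd graph `K(2 t + 1, t)`,
`t ≥ 1`, is `r`-solvable for every vertex `r`; in particular the pebbling number of the odd graph is at
most twelve times the number of its vertices. -/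
theorem result (t : ℕ) (_ht : 1 ≤ t) :
    (∀ (r : {s : Finset (Fin (2 * t + 1)) // s.card = t})
      (C : {s : Finset (Fin (2 * t + 1)) // s.card = t} → ℕ),
      12 * Nat.choose (2 * t + 1) t ≤ ∑ v, C v → Solvable (kneser (2 * t + 1) t) r C) ∧
    pebblingNumber (kneser (2 * t + 1) t) ≤ 12 * Nat.choose (2 * t + 1) t := by
  have hcard : Fintype.card {s : Finset (Fin (2 * t + 1)) // s.card = t} =
      Nat.choose (2 * t + 1) t := by
    rw [Fintype.card_finset_len, Fintype.card_fin]
  have main : ∀ (r : {s : Finset (Fin (2 * t + 1)) // s.card = t})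
      (C : {s : Finset (Fin (2 * t + 1)) // s.card = t} → ℕ),
      12 * Nat.choose (2 * t + 1) t ≤ ∑ v, C v → Solvable (kneser (2 * t + 1) t) r C := by
    intro r C h
    obtain ⟨E, hE, hr⟩ := Pool.Agent.S07497.odd_linear (by rw [Fintype.card_fin]) C r
      (by rw [hcard]; exact h)
    refine ⟨E, ?_, hr⟩
    refine Relation.ReflTransGen.mono (fun A B hAB => ?_) _ _ hE
    obtain ⟨u, v, huv, hd, he⟩ := hAB
    have h1 : ∀ w, B w + Pi.single (M := fun _ => ℕ) u 2 w = A w + Pi.single (M := fun _ => ℕ) v 1 w :=
      fun w => congrFun he w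
    have hu := h1 u
    have hv := h1 v
    rw [Pi.single_eq_same, Pi.single_eq_of_ne huv] at hu
    rw [Pi.single_eq_same, Pi.single_eq_of_ne huv.symm] at hv
    refine ⟨u, v, ⟨huv, hd⟩, by omega, by omega, by omega, fun w hwu hwv => ?_⟩
    have hw := h1 w
    rw [Pi.single_eq_of_ne hwu, Pi.single_eq_of_ne hwv] at hw
    omega
  exact ⟨main, Nat.sInf_le fun r C hC => main r C hC.ge⟩

end Pool.Agent.Results.MP_1d3ff8_co.OddGraphTwelve
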